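import Pool.Agent.Y859.OE.Stm

/-!
# Three points near the curve `a x ^ 2 = A`
-/

set_option autoImplicit false

namespace Pool.Agent.Y177.OE

open Pool.Agent.Y859.OE

theorem real_core {r1 r2 r3 R T α s x1 x2 x3 : ℝ} (hR : 0 < R) (hT0 : 0 < T)
    (hT : T ^ 2 = 2 * R ^ 2) (h1 : R ≤ r1) (h12 : r1 < r2) (h23 : r2 < r3) (h3 : r3 ≤ T)
    (hα : 0 < α) (hs : 0 < s) (hA : 16 * s * R ^ 4 ≤ α ^ 2) (hp : 1 ≤ r2 ^ 2 - r1 ^ 2)
    (hq : 1 ≤ r3 ^ 2 - r2 ^ 2) (hx1 : α < r1 * x1) (hx1' : r1 * x1 ≤ α + s / (2 * α))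
    (hx2 : α < r2 * x2) (hx2' : r2 * x2 ≤ α + s / (2 * α))
    (hx3 : α < r3 * x3) (hx3' : r3 * x3 ≤ α + s / (2 * α))
    (hint : 0 < (r2 ^ 2 - r1 ^ 2) * (x3 - x2) - (r3 ^ 2 - r2 ^ 2) * (x2 - x1) →
      1 ≤ (r2 ^ 2 - r1 ^ 2) * (x3 - x2) - (r3 ^ 2 - r2 ^ 2) * (x2 - x1)) :
    R ^ 10 ≤ α ^ 2 * (r3 ^ 2 - r1 ^ 2) ^ 6 := by
  have hr1 : 0 < r1 := hR.trans_le h1
  have hr2 : 0 < r2 := hr1.trans h12
  have hr3 : 0 < r3 := hr2.trans h23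
  have h2R : R ≤ r2 := h1.trans h12.le
  have h3R : R ≤ r3 := h2R.trans h23.le
  have h2T : r2 ≤ T := h23.le.trans h3
  have h1T : r1 ≤ T := h12.le.trans h2T
  obtain ⟨u, hu⟩ : ∃ u, u = r2 - r1 := ⟨_, rfl⟩
  obtain ⟨v, hv⟩ : ∃ v, v = r3 - r2 := ⟨_, rfl⟩
  have hu0 : 0 < u := by rw [hu]; linarith
  have hv0 : 0 < v := by rw [hv]; linarith
  obtain ⟨p, hpd⟩ : ∃ p, p = r2 ^ 2 - r1 ^ 2 := ⟨_, rfl⟩
  obtain ⟨q, hqd⟩ : ∃ q, q = r3 ^ 2 - r2 ^ 2 := ⟨_, rfl⟩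
  rw [← hpd, ← hqd] at hint
  rw [← hpd] at hp
  rw [← hqd] at hq
  have hpu : p = u * (r1 + r2) := by rw [hpd, hu]; ring
  have hqv : q = v * (r2 + r3) := by rw [hqd, hv]; ring
  have hpq : p + q = (u + v) * (r1 + r3) := by rw [hpd, hqd, hu, hv]; ring
  have hS : r3 ^ 2 - r1 ^ 2 = p + q := by rw [hpd, hqd]; ring
  have hp0 : 0 < p := by linarith
  have hq0 : 0 < q := by linarith
  obtain ⟨M, hMd⟩ : ∃ M, M = α * (u * v * (u + v) * (r1 + r2 + r3)) / (r1 * r2 * r3) := ⟨_, rfl⟩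
  have hM : α * (p / r3 + q / r1 - (p + q) / r2) = M := by
    rw [hMd, hpd, hqd, hu, hv]
    field_simp
    ring
  obtain ⟨B, hBd⟩ : ∃ B, B = s / (2 * α) / R := ⟨_, rfl⟩
  have hB0 : 0 < B := by rw [hBd]; positivity
  have he : ∀ r x : ℝ, R ≤ r → α < r * x → r * x ≤ α + s / (2 * α) →
      0 < (r * x - α) / r ∧ (r * x - α) / r ≤ B ∧ x = α / r + (r * x - α) / r := by
    intro r x hr h h'
    have hr0 : 0 < r := hR.trans_le hr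
    refine ⟨div_pos (by linarith) hr0, ?_, ?_⟩
    · rw [hBd]
      calc (r * x - α) / r ≤ (s / (2 * α)) / r := by
            apply div_le_div_of_nonneg_right _ hr0.le
            linarith
        _ ≤ s / (2 * α) / R := by
            apply div_le_div_of_nonneg_left _ hR hr
            positivity
    · field_simp
      ring
  obtain ⟨e1p, e1B, e1⟩ := he r1 x1 h1 hx1 hx1'
  obtain ⟨e2p, e2B, e2⟩ := he r2 x2 h2R hx2 hx2'
  obtain ⟨e3p, e3B, e3⟩ := he r3 x3 h3R hx3 hx3'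
  obtain ⟨f1, hf1⟩ : ∃ f, f = (r1 * x1 - α) / r1 := ⟨_, rfl⟩
  obtain ⟨f2, hf2⟩ : ∃ f, f = (r2 * x2 - α) / r2 := ⟨_, rfl⟩
  obtain ⟨f3, hf3⟩ : ∃ f, f = (r3 * x3 - α) / r3 := ⟨_, rfl⟩
  rw [← hf1] at e1p e1B e1
  rw [← hf2] at e2p e2B e2
  rw [← hf3] at e3p e3B e3
  obtain ⟨Δ, hΔd⟩ : ∃ Δ, Δ = p * (x3 - x2) - q * (x2 - x1) := ⟨_, rfl⟩
  rw [← hΔd] at hint
  have hΔ : Δ = M + (p * f3 + q * f1 - (p + q) * f2) := by
    rw [hΔd, ← hM, e1, e2, e3]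
    ring
  have hE1 : -((p + q) * B) < p * f3 + q * f1 - (p + q) * f2 := by
    have h4 : (p + q) * f2 ≤ (p + q) * B := by gcongr
    have h5 : 0 < p * f3 := by positivity
    have h6 : 0 < q * f1 := by positivity
    linarith
  have hE2 : p * f3 + q * f1 - (p + q) * f2 ≤ (p + q) * B := by
    have h4 : p * f3 ≤ p * B := by gcongr
    have h5 : q * f1 ≤ q * B := by gcongr
    have h6 : 0 < (p + q) * f2 := by positivity
    linarith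
  have hT6 : T ^ 6 = 8 * R ^ 6 := by
    calc T ^ 6 = (T ^ 2) ^ 3 := by ring
      _ = 8 * R ^ 6 := by rw [hT]; ring
  have K1 : (r1 + r3) * s * (r1 * r2 * r3) < 2 * α ^ 2 * R * (u * v * (r1 + r2 + r3)) := by
    by_contra hcon
    push Not at hcon
    have h4 := mul_le_mul_of_nonneg_right hcon
      (show 0 ≤ (r1 + r2) * (r2 + r3) by positivity)
    have h5 : 2 * α ^ 2 * R * (u * v * (r1 + r2 + r3)) * ((r1 + r2) * (r2 + r3)) =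
        2 * α ^ 2 * R * ((p * q) * (r1 + r2 + r3)) := by rw [hpu, hqv]; ring
    have h6 : 2 * α ^ 2 * R * ((1 * 1) * (R + R + R)) ≤
        2 * α ^ 2 * R * ((p * q) * (r1 + r2 + r3)) := by gcongr
    have h7 : (r1 + r3) * s * (r1 * r2 * r3) * ((r1 + r2) * (r2 + r3)) ≤
        (T + T) * s * (T * T * T) * ((T + T) * (T + T)) := by gcongr
    have h8 : (T + T) * s * (T * T * T) * ((T + T) * (T + T)) = 8 * s * T ^ 6 := by ring
    rw [h5] at h4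
    rw [h8, hT6] at h7
    have h9 : 6 * α ^ 2 * R ^ 2 ≤ 8 * s * (8 * R ^ 6) := by
      calc 6 * α ^ 2 * R ^ 2 = 2 * α ^ 2 * R * ((1 * 1) * (R + R + R)) := by ring
        _ ≤ _ := h6.trans (h4.trans h7)
    have h10 : 6 * (16 * s * R ^ 4) * R ^ 2 ≤ 6 * α ^ 2 * R ^ 2 := by gcongr
    have h11 : 0 < s * R ^ 6 := by positivity
    have h12 : 6 * (16 * s * R ^ 4) * R ^ 2 = 96 * (s * R ^ 6) := by ring
    have h13 : 8 * s * (8 * R ^ 6) = 64 * (s * R ^ 6) := by ring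
    rw [h12] at h10
    rw [h13] at h9
    linarith only [h9, h10, h11]
  have hMB : (p + q) * B < M := by
    have h4 : (r1 + r3) * B < α * (u * v * (r1 + r2 + r3)) / (r1 * r2 * r3) := by
      have h5 : (r1 + r3) * B = ((r1 + r3) * s) / (2 * α * R) := by
        rw [hBd]
        field_simp
      rw [h5, div_lt_div_iff₀ (by positivity) (by positivity)]
      calc (r1 + r3) * s * (r1 * r2 * r3) < 2 * α ^ 2 * R * (u * v * (r1 + r2 + r3)) := K1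
        _ = _ := by ring
    calc (p + q) * B = (u + v) * ((r1 + r3) * B) := by rw [hpq]; ring
      _ < (u + v) * (α * (u * v * (r1 + r2 + r3)) / (r1 * r2 * r3)) := by gcongr
      _ = M := by rw [hMd]; ring
  have hΔ1 : 1 ≤ Δ := hint (by rw [hΔ]; linarith)
  have hM2 : 1 ≤ 2 * M := by
    rw [hΔ] at hΔ1
    linarith
  have h4 : r1 * r2 * r3 ≤ 2 * (α * (u * v * (u + v) * (r1 + r2 + r3))) := by
    rw [hMd, ← mul_div_assoc, le_div_iff₀ (by positivity), one_mul] at hM2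
    exact hM2
  have h5 := mul_le_mul_of_nonneg_right h4
    (show 0 ≤ (r1 + r2) * (r2 + r3) * (r1 + r3) by positivity)
  have h6 : 2 * (α * (u * v * (u + v) * (r1 + r2 + r3))) * ((r1 + r2) * (r2 + r3) * (r1 + r3)) =
      2 * (α * ((p * q) * (p + q) * (r1 + r2 + r3))) := by rw [hpq, hpu, hqv]; ring
  have h7 : (R * R * R) * ((R + R) * (R + R) * (R + R)) ≤
      r1 * r2 * r3 * ((r1 + r2) * (r2 + r3) * (r1 + r3)) := by gcongr
  have h8 : p * q ≤ (p + q) ^ 2 / 4 := by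
    have h81 := sq_nonneg (p - q)
    have h82 : (p - q) ^ 2 = (p + q) ^ 2 - 4 * (p * q) := by ring
    rw [h82] at h81
    linarith only [h81]
  have h9 : 2 * (α * ((p * q) * (p + q) * (r1 + r2 + r3))) ≤
      2 * (α * (((p + q) ^ 2 / 4) * (p + q) * (T + T + T))) := by gcongr
  rw [h6] at h5
  have h10 : 8 * R ^ 6 ≤ 3 / 2 * α * (p + q) ^ 3 * T := by
    calc 8 * R ^ 6 = (R * R * R) * ((R + R) * (R + R) * (R + R)) := by ring
      _ ≤ 2 * (α * (((p + q) ^ 2 / 4) * (p + q) * (T + T + T))) := h7.trans (h5.trans h9)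
      _ = _ := by ring
  have h11 : (8 * R ^ 6) ^ 2 ≤ (3 / 2 * α * (p + q) ^ 3 * T) ^ 2 :=
    pow_le_pow_left₀ (by positivity) h10 2
  have h12' : (3 / 2 * α * (p + q) ^ 3 * T) ^ 2 = 9 / 2 * (α ^ 2 * (p + q) ^ 6) * R ^ 2 := by
    calc (3 / 2 * α * (p + q) ^ 3 * T) ^ 2 = 9 / 4 * α ^ 2 * (p + q) ^ 6 * T ^ 2 := by ring
      _ = _ := by rw [hT]; ring
  rw [h12'] at h11
  have h13 : 64 * R ^ 10 * R ^ 2 ≤ 9 / 2 * (α ^ 2 * (p + q) ^ 6) * R ^ 2 := by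
    calc 64 * R ^ 10 * R ^ 2 = (8 * R ^ 6) ^ 2 := by ring
      _ ≤ _ := h11
  have h14 : 64 * R ^ 10 ≤ 9 / 2 * (α ^ 2 * (p + q) ^ 6) :=
    le_of_mul_le_mul_right h13 (by positivity)
  rw [hS]
  have h15 : 0 ≤ α ^ 2 * (p + q) ^ 6 := by positivity
  linarith

theorem t_THR : S_THR := by
  intro A s D a₁ a₂ a₃ x₁ x₂ x₃ hs hD h1 h12 h23 h3 hA hx1 hx1' hx2 hx2' hx3 hx3'
  have hsr : (0 : ℝ) < s := by exact_mod_cast hs
  have hDr : (0 : ℝ) < D := by exact_mod_cast hD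
  have hAr : (16 : ℝ) * s * (D : ℝ) ^ 2 ≤ A := by exact_mod_cast hA
  have hA0 : (0 : ℝ) < A := lt_of_lt_of_le (by positivity) hAr
  have hR : 0 < √(D : ℝ) := Real.sqrt_pos.2 hDr
  have hα : 0 < √(A : ℝ) := Real.sqrt_pos.2 hA0
  have hRR : √(D : ℝ) ^ 2 = D := Real.sq_sqrt hDr.le
  have hαα : √(A : ℝ) ^ 2 = A := Real.sq_sqrt hA0.le
  have hcs : √((A : ℝ) + s) ≤ √(A : ℝ) + s / (2 * √(A : ℝ)) := by
    apply Real.sqrt_le_iff.2
    refine ⟨by positivity, ?_⟩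
    have h4 : (√(A : ℝ) + s / (2 * √(A : ℝ))) ^ 2 = √(A : ℝ) ^ 2 + s + (s / (2 * √(A : ℝ))) ^ 2 := by
      field_simp
      ring
    rw [h4, hαα]
    have := sq_nonneg ((s : ℝ) / (2 * √(A : ℝ)))
    linarith
  have hlow : ∀ a x : ℕ, A < a * x ^ 2 → √(A : ℝ) < √(a : ℝ) * x := by
    intro a x h
    have h4 : √(a : ℝ) * x = √((a : ℝ) * (x : ℝ) ^ 2) := by
      rw [Real.sqrt_mul (Nat.cast_nonneg a), Real.sqrt_sq (Nat.cast_nonneg x)]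
    rw [h4]
    apply Real.sqrt_lt_sqrt hA0.le
    exact_mod_cast h
  have hupp : ∀ a x : ℕ, a * x ^ 2 ≤ A + s → √(a : ℝ) * x ≤ √(A : ℝ) + s / (2 * √(A : ℝ)) := by
    intro a x h
    have h4 : √(a : ℝ) * x = √((a : ℝ) * (x : ℝ) ^ 2) := by
      rw [Real.sqrt_mul (Nat.cast_nonneg a), Real.sqrt_sq (Nat.cast_nonneg x)]
    rw [h4]
    refine le_trans (Real.sqrt_le_sqrt ?_) hcs
    exact_mod_cast h
  have ha1 : √(a₁ : ℝ) ^ 2 = a₁ := Real.sq_sqrt (Nat.cast_nonneg _)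
  have ha2 : √(a₂ : ℝ) ^ 2 = a₂ := Real.sq_sqrt (Nat.cast_nonneg _)
  have ha3 : √(a₃ : ℝ) ^ 2 = a₃ := Real.sq_sqrt (Nat.cast_nonneg _)
  have h12r : (a₁ : ℝ) + 1 ≤ a₂ := by exact_mod_cast h12
  have h23r : (a₂ : ℝ) + 1 ≤ a₃ := by exact_mod_cast h23
  have key := real_core (r1 := √(a₁ : ℝ)) (r2 := √(a₂ : ℝ)) (r3 := √(a₃ : ℝ)) (R := √(D : ℝ))
    (T := √(2 * (D : ℝ))) (α := √(A : ℝ)) (s := s) (x1 := x₁) (x2 := x₂) (x3 := x₃) hR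
    (Real.sqrt_pos.2 (by positivity)) (by rw [Real.sq_sqrt (by positivity), hRR])
    (Real.sqrt_le_sqrt (by exact_mod_cast h1))
    (Real.sqrt_lt_sqrt (Nat.cast_nonneg _) (by exact_mod_cast h12))
    (Real.sqrt_lt_sqrt (Nat.cast_nonneg _) (by exact_mod_cast h23))
    (Real.sqrt_le_sqrt (by exact_mod_cast h3)) hα hsr
    (by
      rw [hαα]
      calc 16 * (s : ℝ) * √(D : ℝ) ^ 4 = 16 * s * (√(D : ℝ) ^ 2) ^ 2 := by ring
        _ = 16 * s * (D : ℝ) ^ 2 := by rw [hRR]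
        _ ≤ A := hAr)
    (by rw [ha1, ha2]; linarith) (by rw [ha2, ha3]; linarith)
    (hlow _ _ hx1) (hupp _ _ hx1') (hlow _ _ hx2) (hupp _ _ hx2') (hlow _ _ hx3) (hupp _ _ hx3')
    (by
      intro h
      rw [ha1, ha2, ha3] at h ⊢
      have h4 : ((((a₂ : ℤ) - a₁) * ((x₃ : ℤ) - x₂) - ((a₃ : ℤ) - a₂) * ((x₂ : ℤ) - x₁) : ℤ) : ℝ) =
          ((a₂ : ℝ) - a₁) * ((x₃ : ℝ) - x₂) - ((a₃ : ℝ) - a₂) * ((x₂ : ℝ) - x₁) := by
        push_cast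
        ring
      rw [← h4] at h ⊢
      have h5 : 0 < (((a₂ : ℤ) - a₁) * ((x₃ : ℤ) - x₂) - ((a₃ : ℤ) - a₂) * ((x₂ : ℤ) - x₁) : ℤ) := by
        exact_mod_cast h
      exact_mod_cast h5)
  rw [ha3, ha1, hαα] at key
  have h4 : √(D : ℝ) ^ 10 = (D : ℝ) ^ 5 := by
    calc √(D : ℝ) ^ 10 = (√(D : ℝ) ^ 2) ^ 5 := by ring
      _ = _ := by rw [hRR]
  rw [h4] at key
  have h5 : ((a₃ - a₁ : ℕ) : ℝ) = (a₃ : ℝ) - a₁ := by
    rw [Nat.cast_sub (by omega)]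
  rw [← h5] at key
  exact_mod_cast key

end Pool.Agent.Y177.OE
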